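import Pool.Agent.Q2.UN.Red

namespace Pool.Agent.Results.MP_4223bd_al.NotUnimodal

open Pool.Agent.Q2.UN Polynomial

/-- The coefficients `c_k` of `P` have indices `a < b < c` with `c_b < min(c_a, c_c)`;
this is the negation of unimodality. -/
def HasDip (P : ℤ[X]) : Prop :=
  ∃ a b c : ℕ, a < b ∧ b < c ∧ P.coeff b < min (P.coeff a) (P.coeff c)

/-- `N_α = (q)_α^2 𝔍_α` is (the rational function given by) the integer polynomial `P`. -/
def IsNumerator {ι : Type} [Fintype ι] [DecidableEq ι] (d : ι → ℕ) (J : (ι → ℕ) → RatFunc ℚ)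
    (α : ι → ℕ) (P : ℤ[X]) : Prop :=
  algebraMap ℚ[X] (RatFunc ℚ) (P.map (Int.castRingHom ℚ)) = qpoch d α ^ 2 * J α

theorem datum_B : IsCartanDatum (CartanMatrix.B 2) ![2, 1] where
  diag := by decide
  offdiag := by
    intro i j _
    fin_cases i <;> fin_cases j <;> first | decide | contradiction
  pos := by decide
  symm := by decide
  posDef := by
    intro x hx
    rw [CartanMatrix.B_two]
    simp only [Fin.sum_univ_two, Matrix.of_apply, Matrix.cons_val', Matrix.cons_val_zero,
      Matrix.cons_val_one, Matrix.cons_val_fin_one]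
    have h : x 0 ≠ 0 ∨ x 1 ≠ 0 := by
      by_contra hcon
      push Not at hcon
      apply hx
      funext i
      fin_cases i
      · exact hcon.1
      · exact hcon.2
    have key : (2 : ℤ) * 2 * x 0 * x 0 + -2 * 1 * x 0 * x 1 + (-1 * 2 * x 1 * x 0 + 2 * 1 * x 1 * x 1)
        = 2 * (x 0) ^ 2 + 2 * (x 0 - x 1) ^ 2 := by ring
    have h2 : 0 < 2 * (x 0) ^ 2 + 2 * (x 0 - x 1) ^ 2 := by
      rcases eq_or_ne (x 0) 0 with h0 | h0
      · have h1 : x 1 ≠ 0 := by
          rcases h with h | h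
          · exact absurd h0 h
          · exact h
        rw [h0]
        have := sq_pos_of_ne_zero h1
        nlinarith
      · have := sq_pos_of_ne_zero h0
        nlinarith [sq_nonneg (x 0 - x 1)]
    push_cast
    linarith

theorem datum_G : IsCartanDatum CartanMatrix.G₂ ![3, 1] where
  diag := by decide
  offdiag := by
    intro i j _
    fin_cases i <;> fin_cases j <;> first | decide | contradiction
  pos := by decide
  symm := by decide
  posDef := by
    intro x hx
    unfold CartanMatrix.G₂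
    simp only [Fin.sum_univ_two, Matrix.of_apply, Matrix.cons_val', Matrix.cons_val_zero,
      Matrix.cons_val_one, Matrix.cons_val_fin_one]
    have h : x 0 ≠ 0 ∨ x 1 ≠ 0 := by
      by_contra hcon
      push Not at hcon
      apply hx
      funext i
      fin_cases i
      · exact hcon.1
      · exact hcon.2
    have h2 : 0 < 3 * (x 0) ^ 2 + (3 * x 0 - 2 * x 1) ^ 2 := by
      rcases eq_or_ne (x 0) 0 with h0 | h0
      · have h1 : x 1 ≠ 0 := by
          rcases h with h | h
          · exact absurd h0 h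
          · exact h
        rw [h0]
        have := sq_pos_of_ne_zero h1
        nlinarith
      · have := sq_pos_of_ne_zero h0
        nlinarith [sq_nonneg (3 * x 0 - 2 * x 1)]
    push_cast
    nlinarith

/-- Negative answer: `N_α` is a polynomial which is not unimodal, for `α = 2 α_i + 2 α_j` when
`α_i, α_j` span a subsystem of type `B_2` (`α_j` short, of square length 2), and for
`α = 3 α_i + 3 α_j` when they span a subsystem of type `G_2`. In particular this happens for
`𝔤` of type `B_2` and of type `G_2`. -/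
theorem result :
    (∀ (ι : Type) [Fintype ι] [DecidableEq ι] (A : Matrix ι ι ℤ) (d : ι → ℕ),
      IsCartanDatum A d → (∃! J, IsJ A d J) ∧
        ∀ J, IsJ A d J → ∀ i j : ι, d j = 1 → A j i = -1 →
          (A i j = -2 → ∃ P, IsNumerator d J (emb i j 2 2) P ∧ HasDip P) ∧
          (A i j = -3 → ∃ P, IsNumerator d J (emb i j 3 3) P ∧ HasDip P)) ∧
    IsCartanDatum (CartanMatrix.B 2) ![2, 1] ∧ IsCartanDatum CartanMatrix.G₂ ![3, 1] ∧
    (∃ J, IsJ (CartanMatrix.B 2) ![2, 1] J ∧
      ∃ P, IsNumerator ![2, 1] J ![2, 2] P ∧ HasDip P) ∧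
    (∃ J, IsJ CartanMatrix.G₂ ![3, 1] J ∧
      ∃ P, IsNumerator ![3, 1] J ![3, 3] P ∧ HasDip P) := by
  have main : ∀ (ι : Type) [Fintype ι] [DecidableEq ι] (A : Matrix ι ι ℤ) (d : ι → ℕ),
      IsCartanDatum A d → (∃! J, IsJ A d J) ∧
        ∀ J, IsJ A d J → ∀ i j : ι, d j = 1 → A j i = -1 →
          (A i j = -2 → ∃ P, IsNumerator d J (emb i j 2 2) P ∧ HasDip P) ∧
          (A i j = -3 → ∃ P, IsNumerator d J (emb i j 3 3) P ∧ HasDip P) := by
    intro ι _ _ A d h
    refine ⟨existsUnique_J h, ?_⟩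
    intro J hJ i j hd hji
    have hij : i ≠ j := by
      rintro rfl
      rw [h.diag] at hji
      norm_num at hji
    constructor
    · intro h1
      refine ⟨1 + X ^ 1 + 3 * X ^ 2 + 2 * X ^ 3 + 5 * X ^ 4 +
        2 * X ^ 5 + 3 * X ^ 6 + X ^ 7 + X ^ 8, ?_, 2, 3, 4, by norm_num, by norm_num, ?_⟩
      · unfold IsNumerator
        rw [value_B h i j hij hd h1 hji J hJ]
        simp only [Polynomial.map_add, Polynomial.map_mul, Polynomial.map_pow, Polynomial.map_X,
          Polynomial.map_one, Polynomial.map_ofNat, map_add, map_mul, map_pow,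
          RatFunc.algebraMap_X, map_one, map_ofNat]
      · simp [coeff_one, coeff_X, coeff_X_pow, coeff_ofNat_mul]
    · intro h1
      refine ⟨1 + 2 * X ^ 1 + 5 * X ^ 2 + 11 * X ^ 3 + 16 * X ^ 4 + 24 * X ^ 5 + 39 * X ^ 6 +
        46 * X ^ 7 + 60 * X ^ 8 + 84 * X ^ 9 + 88 * X ^ 10 + 99 * X ^ 11 + 119 * X ^ 12 +
        110 * X ^ 13 + 110 * X ^ 14 + 119 * X ^ 15 + 99 * X ^ 16 + 88 * X ^ 17 + 84 * X ^ 18 +
        60 * X ^ 19 + 46 * X ^ 20 + 39 * X ^ 21 + 24 * X ^ 22 + 16 * X ^ 23 + 11 * X ^ 24 +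
        5 * X ^ 25 + 2 * X ^ 26 + X ^ 27, ?_, 12, 13, 15, by norm_num, by norm_num, ?_⟩
      · unfold IsNumerator
        rw [value_G h i j hij hd h1 hji J hJ]
        simp only [Polynomial.map_add, Polynomial.map_mul, Polynomial.map_pow, Polynomial.map_X,
          Polynomial.map_one, Polynomial.map_ofNat, map_add, map_mul, map_pow,
          RatFunc.algebraMap_X, map_one, map_ofNat]
      · simp [coeff_one, coeff_X, coeff_X_pow, coeff_ofNat_mul]
  refine ⟨main, datum_B, datum_G, ?_, ?_⟩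
  · obtain ⟨⟨J, hJ, -⟩, h2⟩ := main (Fin 2) _ _ datum_B
    refine ⟨J, hJ, ?_⟩
    have h3 := (h2 J hJ 0 1 rfl (by decide)).1 (by decide)
    have h4 : emb (0 : Fin 2) 1 2 2 = ![2, 2] := by decide
    rwa [h4] at h3
  · obtain ⟨⟨J, hJ, -⟩, h2⟩ := main (Fin 2) _ _ datum_G
    refine ⟨J, hJ, ?_⟩
    have h3 := (h2 J hJ 0 1 rfl (by decide)).2 (by decide)
    have h4 : emb (0 : Fin 2) 1 3 3 = ![3, 3] := by decide
    rwa [h4] at h3

end Pool.Agent.Results.MP_4223bd_al.NotUnimodal
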